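import Pool.Agent.helper83.LS.Spec

set_option autoImplicit false

/-! # Project ls, KL: the shape of the rooted tree is in the class (helper82) -/

namespace LSH

theorem KL_two {n : ℕ} {s : Set (Fin n)} {a b : Fin n} (hab : a ≠ b) (ha : a ∈ s) (hb : b ∈ s) : 2 ≤ s.ncard := by
  have h : ({a, b} : Set (Fin n)) ⊆ s := by
    rintro x (rfl | rfl)
    · exact ha
    · exact hb
  have h2 := Set.ncard_le_ncard h s.toFinite
  rwa [Set.ncard_pair hab] at h2

theorem KL_three {n : ℕ} {s : Set (Fin n)} {a b c : Fin n} (hab : a ≠ b) (hac : a ≠ c) (hbc : b ≠ c)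
    (ha : a ∈ s) (hb : b ∈ s) (hc : c ∈ s) : 3 ≤ s.ncard := by
  have h : ({a, b, c} : Set (Fin n)) ⊆ s := by
    rintro x (rfl | rfl | rfl)
    · exact ha
    · exact hb
    · exact hc
  have h2 := Set.ncard_le_ncard h s.toFinite
  rwa [Set.ncard_eq_three.2 ⟨a, b, c, hab, hac, hbc, rfl⟩] at h2

theorem KL_root_mem {V : Type} (t : LT V) : t.root ∈ t.verts := by
  cases t <;> simp [LT.root, LT.verts]

/-- a branching child has degree 3 -/
theorem KL_deg {n : ℕ} (T : SimpleGraph (Fin n)) (hdeg : ∀ v, (T.neighborSet v).ncard ≤ 3) (r w : Fin n)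
    (a : LT (Fin n)) (hn : a.verts.Nodup)
    (he : ∀ e ∈ a.edg, T.Adj e.1 e.2 ∧ T.dist r e.2 = T.dist r e.1 + 1)
    (hw : T.Adj w a.root ∧ T.dist r a.root = T.dist r w + 1) (hbr : a.shape.isBr) :
    (T.neighborSet a.root).ncard = 3 := by
  cases a with
  | leaf v => exact absurd hbr (by simp [LT.shape, BT.isBr])
  | un v t => exact absurd hbr (by simp [LT.shape, BT.isBr])
  | br v c d =>
    have h1 := he (v, c.root) (by simp [LT.edg])
    have h2 := he (v, d.root) (by simp [LT.edg])
    simp only [LT.verts, List.nodup_cons, List.nodup_append] at hn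
    have hcd : c.root ≠ d.root := hn.2.2.2 _ (KL_root_mem c) _ (KL_root_mem d)
    simp only [LT.root] at hw ⊢
    simp only at h1 h2
    have hwc : w ≠ c.root := by
      intro h
      rw [← h] at h1
      omega
    have hwd : w ≠ d.root := by
      intro h
      rw [← h] at h2
      omega
    have h3 := KL_three (s := T.neighborSet v) hwc hwd hcd hw.1.symm h1.1 h2.1
    exact le_antisymm (hdeg v) h3

theorem KL_dbl {n : ℕ} (T : SimpleGraph (Fin n)) (r u : Fin n) (hdeg : ∀ v, (T.neighborSet v).ncard ≤ 3)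
    (htr : ∀ u v w, T.Adj v w → T.dist r w = T.dist r v + 1 → T.dist r v = T.dist r u + T.dist u v →
      T.dist r w = T.dist r u + T.dist u w) (s : LT (Fin n)) :
    ∀ k : ℕ, s.verts.Nodup → (∀ e ∈ s.edg, T.Adj e.1 e.2 ∧ T.dist r e.2 = T.dist r e.1 + 1) →
      dbl k s.shape → T.dist r s.root = T.dist r u + T.dist u s.root → T.dist r u < T.dist r s.root →
      T.dist u s.root + k ≤ 4 →
      ∃ w, T.dist r w = T.dist r u + T.dist u w ∧ T.dist r u < T.dist r w ∧ T.dist u w ≤ 4 ∧
        2 ≤ {x | T.Adj w x ∧ T.dist r x = T.dist r w + 1 ∧ (T.neighborSet x).ncard = 3}.ncard := by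
  induction s with
  | leaf v =>
    intro k _ _ hd
    exact absurd hd (by cases k <;> simp [LT.shape, dbl])
  | un v t ih =>
    intro k hn he hd h1 h2 h3
    cases k with
    | zero => exact absurd hd (by simp [LT.shape, dbl])
    | succ k =>
      have hd' : dbl k t.shape := hd
      have hvt := he (v, t.root) (by simp [LT.edg])
      simp only at hvt
      simp only [LT.root] at h1 h2 h3
      have h4 := htr u v t.root hvt.1 hvt.2 h1
      have hn' : t.verts.Nodup := by
        simp only [LT.verts, List.nodup_cons] at hn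
        exact hn.2
      exact ih k hn' (fun e h => he e (by simp only [LT.edg, List.mem_cons]; exact Or.inr h)) hd' h4
        (by omega) (by omega)
  | br v a b =>
    intro k hn he hd h1 h2 h3
    have hd' : a.shape.isBr ∧ b.shape.isBr := by
      cases k <;> exact hd
    have hva := he (v, a.root) (by simp [LT.edg])
    have hvb := he (v, b.root) (by simp [LT.edg])
    simp only at hva hvb
    simp only [LT.root] at h1 h2 h3
    simp only [LT.verts, List.nodup_cons, List.nodup_append] at hn
    have hab : a.root ≠ b.root := hn.2.2.2 _ (KL_root_mem a) _ (KL_root_mem b)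
    have hda := KL_deg T hdeg r v a hn.2.1 (fun e h => he e (by
      simp only [LT.edg, List.mem_append, List.mem_cons]; exact Or.inl (Or.inr h))) hva hd'.1
    have hdb := KL_deg T hdeg r v b hn.2.2.1 (fun e h => he e (by
      simp only [LT.edg, List.mem_append, List.mem_cons]; exact Or.inr (Or.inr h))) hvb hd'.2
    exact ⟨v, h1, h2, by omega, KL_two hab ⟨hva.1, hva.2, hda⟩ ⟨hvb.1, hvb.2, hdb⟩⟩

theorem KL (hTR : TR_stmt) : KL_stmt := by
  intro n T hT hdeg r hB t _ hnd hedg
  obtain ⟨-, -, htr⟩ := hTR n T hT r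
  have key : ∀ (v x : Fin n) (s : LT (Fin n)), s.verts.Nodup →
      (∀ e ∈ s.edg, T.Adj e.1 e.2 ∧ T.dist r e.2 = T.dist r e.1 + 1) →
      T.Adj v s.root ∧ T.dist r s.root = T.dist r v + 1 → T.Adj v x ∧ T.dist r x = T.dist r v + 1 →
      s.root ≠ x → ¬ dbl 3 s.shape := by
    intro v x s hn he hvs hvx hsx hd
    have h0 : T.dist r v = T.dist r v + T.dist v v := by rw [SimpleGraph.dist_self, add_zero]
    have h1 := htr v v s.root hvs.1 hvs.2 h0
    obtain ⟨w, hw1, hw2, hw3, hw4⟩ := KL_dbl T r v hdeg htr s 3 hn he hd h1 (by omega) (by omega)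
    have hwr : w ≠ r := by
      intro h
      rw [h, SimpleGraph.dist_self] at hw2
      omega
    rcases hB.2 w hwr with h | h
    · omega
    · have hvw : v ≠ w := by
        intro h'
        rw [h'] at hw2
        exact lt_irrefl _ hw2
      have h5 := h v hvw hw1 hw3
      have h6 := KL_two (s := {w | T.Adj v w ∧ T.dist r w = T.dist r v + 1}) hsx hvs hvx
      omega
  have main : ∀ s : LT (Fin n), s.verts.Nodup →
      (∀ e ∈ s.edg, T.Adj e.1 e.2 ∧ T.dist r e.2 = T.dist r e.1 + 1) → Cl s.shape := by
    intro s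
    induction s with
    | leaf v => intro _ _; trivial
    | un v s ih =>
      intro hn he
      simp only [LT.verts, List.nodup_cons] at hn
      exact ih hn.2 (fun e h => he e (by simp only [LT.edg, List.mem_cons]; exact Or.inr h))
    | br v a b iha ihb =>
      intro hn he
      have hva := he (v, a.root) (by simp [LT.edg])
      have hvb := he (v, b.root) (by simp [LT.edg])
      simp only at hva hvb
      simp only [LT.verts, List.nodup_cons, List.nodup_append] at hn
      have hab : a.root ≠ b.root := hn.2.2.2 _ (KL_root_mem a) _ (KL_root_mem b)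
      have hea : ∀ e ∈ a.edg, T.Adj e.1 e.2 ∧ T.dist r e.2 = T.dist r e.1 + 1 := fun e h => he e (by
        simp only [LT.edg, List.mem_append, List.mem_cons]; exact Or.inl (Or.inr h))
      have heb : ∀ e ∈ b.edg, T.Adj e.1 e.2 ∧ T.dist r e.2 = T.dist r e.1 + 1 := fun e h => he e (by
        simp only [LT.edg, List.mem_append, List.mem_cons]; exact Or.inr (Or.inr h))
      exact ⟨iha hn.2.1 hea, ihb hn.2.2.1 heb, key v b.root a hn.2.1 hea hva hvb hab,
        key v a.root b hn.2.2.1 heb hvb hva hab.symm⟩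
  exact main t hnd (fun e h => (hedg e.1 e.2).1 h)

end LSH
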